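import Pool.Agent.W844.DO.Defs

/-!
Project DO (helper844), task DO-ALG: convolution preserves smoothness away from zero.
-/

set_option autoImplicit false

open MeasureTheory Filter Topology Set
open scoped Convolution

namespace Pool.Agent.W349.DO

open Pool.Agent.W844.DO

lemma cv_eq (u v : ℝ → ℝ) : cv u v = (u ⋆[ContinuousLinearMap.mul ℝ ℝ, volume] v) := rfl

/-- a cut-off of a causal function, smooth away from zero, is smooth -/
lemma cut_smooth {m : ℕ} {u ψ : ℝ → ℝ} {a : ℝ} (ha : 0 < a) (hψ : ContDiff ℝ m ψ)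
    (h0 : ∀ z, z ≤ a → ψ z = 0) (hu : ContDiffOn ℝ m u (Ioi 0)) :
    ContDiff ℝ m (fun z => ψ z * u z) := by
  rw [contDiff_iff_contDiffAt]
  intro z
  by_cases hz : 0 < z
  · exact hψ.contDiffAt.mul (hu.contDiffAt (Ioi_mem_nhds hz))
  · have h1 : (fun z => ψ z * u z) =ᶠ[𝓝 z] fun _ => (0 : ℝ) := by
      filter_upwards [Iio_mem_nhds (show z < a by linarith)] with w hw
      rw [h0 w (le_of_lt hw), zero_mul]
    exact contDiffAt_const.congr_of_eventuallyEq h1

theorem alg : S_ALG := by
  intro m u v hu hv hui hvi hus hvs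
  intro x0 hx0
  rw [mem_Ioi] at hx0
  -- the cut-off functions
  set s : ℝ → ℝ := fun z => Real.smoothTransition ((z - x0 / 8) / (x0 / 8)) with hs
  set ψ : ℝ → ℝ := fun z => s z * Real.smoothTransition ((3 * x0 - z) / x0) with hψ
  have hsC : ContDiff ℝ m s :=
    Real.smoothTransition.contDiff.comp ((contDiff_id.sub contDiff_const).div_const _)
  have hψC : ContDiff ℝ m ψ :=
    hsC.mul (Real.smoothTransition.contDiff.comp ((contDiff_const.sub contDiff_id).div_const _))
  have s0 : ∀ z, z ≤ x0 / 8 → s z = 0 := fun z hz =>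
    Real.smoothTransition.zero_of_nonpos (div_nonpos_of_nonpos_of_nonneg (by linarith)
      (by linarith))
  have s1 : ∀ z, x0 / 4 ≤ z → s z = 1 := fun z hz =>
    Real.smoothTransition.one_of_one_le (by rw [le_div_iff₀ (by linarith)]; linarith)
  have sle : ∀ z, |1 - s z| ≤ 1 := fun z => by
    have h1 := Real.smoothTransition.nonneg ((z - x0 / 8) / (x0 / 8))
    have h2 := Real.smoothTransition.le_one ((z - x0 / 8) / (x0 / 8))
    rw [abs_le]; constructor <;> simp only [hs] <;> linarith
  have ψ0 : ∀ z, z ≤ x0 / 8 → ψ z = 0 := fun z hz => by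
    simp only [hψ]; rw [s0 z hz, zero_mul]
  have ψ0' : ∀ z, 3 * x0 ≤ z → ψ z = 0 := fun z hz => by
    simp only [hψ]
    rw [Real.smoothTransition.zero_of_nonpos (div_nonpos_of_nonpos_of_nonneg (by linarith)
      hx0.le), mul_zero]
  have ψ1 : ∀ z, z ≤ 2 * x0 → ψ z = s z := fun z hz => by
    simp only [hψ]
    rw [Real.smoothTransition.one_of_one_le (by rw [le_div_iff₀ hx0]; linarith), mul_one]
  have ψc : ∀ w : ℝ → ℝ, HasCompactSupport (fun z => ψ z * w z) := fun w => by
    refine HasCompactSupport.intro (isCompact_Icc (a := x0 / 8) (b := 3 * x0)) fun z hz => ?_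
    rw [mem_Icc, not_and_or, not_le, not_le] at hz
    rcases hz with h | h
    · rw [ψ0 z h.le, zero_mul]
    · rw [ψ0' z h.le, zero_mul]
  -- the pieces
  set u1 : ℝ → ℝ := fun z => (1 - s z) * u z with hu1
  set u2 : ℝ → ℝ := fun z => ψ z * u z with hu2
  set v2 : ℝ → ℝ := fun z => ψ z * v z with hv2
  have hu2C : ContDiff ℝ m u2 := cut_smooth (by linarith) hψC ψ0 hus
  have hv2C : ContDiff ℝ m v2 := cut_smooth (by linarith) hψC ψ0 hvs
  have hu1i : Integrable u1 := by
    refine hui.mono ((continuous_const.sub hsC.continuous).aestronglyMeasurable.mul hui.1)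
      (Eventually.of_forall fun z => ?_)
    simp only [hu1]
    rw [norm_mul, Real.norm_eq_abs]
    exact mul_le_of_le_one_left (norm_nonneg _) (sle z)
  have hA : ContDiff ℝ m (cv u1 v2) := by
    rw [cv_eq]
    exact HasCompactSupport.contDiff_convolution_right (n := m) _ (ψc v) hu1i.locallyIntegrable
      hv2C
  have hB : ContDiff ℝ m (cv u2 v) := by
    rw [cv_eq]
    exact HasCompactSupport.contDiff_convolution_left (n := m) _ (ψc u) hu2C
      hvi.locallyIntegrable
  have hkey : ∀ x ∈ Ioo (x0 / 2) (2 * x0), cv u v x = cv u1 v2 x + cv u2 v x := by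
    intro x hx
    obtain ⟨hx1, hx2⟩ := hx
    have i1 : Integrable fun y => u1 y * v2 (x - y) := by
      have h1 : ConvolutionExistsAt u1 v2 x (ContinuousLinearMap.mul ℝ ℝ) volume :=
        (ψc v).convolutionExists_right _ hu1i.locallyIntegrable hv2C.continuous x
      exact h1
    have i2 : Integrable fun y => u2 y * v (x - y) := by
      have h1 : ConvolutionExistsAt u2 v x (ContinuousLinearMap.mul ℝ ℝ) volume :=
        (ψc u).convolutionExists_left _ hu2C.continuous hvi.locallyIntegrable x
      exact h1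
    show ∫ y, u y * v (x - y) = (∫ y, u1 y * v2 (x - y)) + ∫ y, u2 y * v (x - y)
    rw [← integral_add i1 i2]
    congr 1; ext y
    simp only [hu1, hu2, hv2]
    by_cases hy0 : y ≤ 0
    · rw [hu y hy0]; ring
    by_cases hyx : x ≤ y
    · rw [hv (x - y) (by linarith)]; ring
    push Not at hy0 hyx
    rw [ψ1 y (by linarith), ψ1 (x - y) (by linarith)]
    by_cases h4 : x0 / 4 ≤ y
    · rw [s1 y h4]; ring
    · push Not at h4
      rw [s1 (x - y) (by linarith)]; ring
  have hn : Ioo (x0 / 2) (2 * x0) ∈ 𝓝 x0 := Ioo_mem_nhds (by linarith) (by linarith)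
  have hfin : ContDiffAt ℝ m (cv u v) x0 := by
    refine (hA.add hB).contDiffAt.congr_of_eventuallyEq ?_
    filter_upwards [hn] with x hx
    exact hkey x hx
  exact hfin.contDiffWithinAt

end Pool.Agent.W349.DO
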