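import Pool.Agent.W844.DO.Defs

/-!
Project DO (helper844), task DO-EX: existence of the resolvent (contraction in `L¹`).
-/

set_option autoImplicit false

open MeasureTheory Filter Topology Set
open scoped Convolution ENNReal NNReal

namespace Pool.Agent.W349.DO

open Pool.Agent.W844.DO

lemma cv_eq' (u v : ℝ → ℝ) : cv u v = (u ⋆[ContinuousLinearMap.mul ℝ ℝ, volume] v) := rfl

lemma cv_int {u v : ℝ → ℝ} (hu : Integrable u) (hv : Integrable v) : Integrable (cv u v) := by
  rw [cv_eq']; exact hu.integrable_convolution _ hv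

/-- the norm of a convolution -/
lemma cv_norm {u v : ℝ → ℝ} (hu : Integrable u) (hv : Integrable v) :
    ∫ x, |cv u v x| ≤ (∫ x, |u x|) * ∫ x, |v x| := by
  have h1 : ∫ x, cv (fun y => |u y|) (fun y => |v y|) x = (∫ x, |u x|) * ∫ x, |v x| := by
    rw [cv_eq']
    exact integral_convolution (ContinuousLinearMap.mul ℝ ℝ) hu.abs hv.abs
  rw [← h1]
  refine integral_mono (cv_int hu hv).abs (cv_int hu.abs hv.abs) fun x => ?_
  show |∫ y, u y * v (x - y)| ≤ ∫ y, |u y| * |v (x - y)|
  refine (abs_integral_le_integral_abs).trans (le_of_eq ?_)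
  congr 1; ext y; rw [abs_mul]

/-- the convolution only depends on the class of the second factor -/
lemma cv_congr (u : ℝ → ℝ) {v w : ℝ → ℝ} (h : v =ᵐ[volume] w) (x : ℝ) : cv u v x = cv u w x := by
  show ∫ y, u y * v (x - y) = ∫ y, u y * w (x - y)
  refine integral_congr_ae ?_
  have h1 := (quasiMeasurePreserving_sub_left_of_right_invariant (volume : Measure ℝ) x).ae_eq_comp h
  filter_upwards [h1] with y hy
  have hy' : v (x - y) = w (x - y) := hy
  simp only [hy']

lemma cv_sub {u v w : ℝ → ℝ} (hu : Integrable u) (hv : Integrable v) (hw : Integrable w) :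
    ∀ᵐ x, cv u v x - cv u w x = cv u (fun y => v y - w y) x := by
  filter_upwards [hu.ae_convolution_exists (ContinuousLinearMap.mul ℝ ℝ) hv,
    hu.ae_convolution_exists (ContinuousLinearMap.mul ℝ ℝ) hw] with x h1 h2
  have i1 : Integrable fun y => u y * v (x - y) := h1
  have i2 : Integrable fun y => u y * w (x - y) := h2
  show (∫ y, u y * v (x - y)) - (∫ y, u y * w (x - y)) = ∫ y, u y * (v (x - y) - w (x - y))
  rw [← integral_sub i1 i2]
  congr 1; ext y; ring

/-- a fixed point in `L¹` -/
lemma fixed {k : ℝ → ℝ} (hk : Integrable k) (h1 : ∫ x, |k x| < 1) :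
    ∃ r : ℝ → ℝ, Integrable r ∧ ∀ᵐ x, r x + cv k r x = k x := by
  let E := ℝ →₁[(volume : Measure ℝ)] ℝ
  have hi : ∀ f : E, Integrable (cv k f) := fun f => cv_int hk (L1.integrable_coeFn f)
  let T : E → E := fun f => hk.toL1 k - (hi f).toL1 (cv k f)
  have hθ0 : 0 ≤ ∫ x, |k x| := integral_nonneg fun x => abs_nonneg _
  set θ : ℝ≥0 := ⟨∫ x, |k x|, hθ0⟩ with hθ
  have hT : ContractingWith θ T := by
    refine ⟨?_, LipschitzWith.of_dist_le_mul fun f g => ?_⟩
    · rw [← NNReal.coe_lt_coe]; exact h1
    · have hfg := L1.integrable_coeFn (f - g)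
      have e1 : dist (T f) (T g) = ∫ x, |cv k f x - cv k g x| := by
        rw [dist_eq_norm]
        have e2 : T f - T g = ((hi g).sub (hi f)).toL1 (fun x => cv k g x - cv k f x) := by
          have : ((hi g).sub (hi f)).toL1 (fun x => cv k g x - cv k f x) =
              (hi g).toL1 (cv k g) - (hi f).toL1 (cv k f) := Integrable.toL1_sub _ _ (hi g) (hi f)
          rw [this]
          show (hk.toL1 k - (hi f).toL1 (cv k f)) - (hk.toL1 k - (hi g).toL1 (cv k g)) = _
          abel
        rw [e2, L1.norm_eq_integral_norm]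
        refine integral_congr_ae ?_
        filter_upwards [((hi g).sub (hi f)).coeFn_toL1] with x hx
        have hx' : ((((hi g).sub (hi f)).toL1 (fun x => cv k g x - cv k f x) : E) : ℝ → ℝ) x =
          cv k g x - cv k f x := hx
        rw [hx', Real.norm_eq_abs, abs_sub_comm]
      have e3 : ∫ x, |cv k f x - cv k g x| = ∫ x, |cv k (f - g : E) x| := by
        refine integral_congr_ae ?_
        filter_upwards [cv_sub hk (L1.integrable_coeFn f) (L1.integrable_coeFn g)] with x hx
        rw [hx]
        congr 1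
        refine cv_congr k ?_ x
        filter_upwards [Lp.coeFn_sub f g] with y hy
        rw [hy]; rfl
      rw [e1, e3, dist_eq_norm, L1.norm_eq_integral_norm]
      exact cv_norm hk hfg
  obtain ⟨f, hf⟩ : ∃ f : E, T f = f := by
    have : Nonempty E := ⟨0⟩
    exact ⟨hT.fixedPoint T, hT.fixedPoint_isFixedPt⟩
  refine ⟨f, L1.integrable_coeFn f, ?_⟩
  have h2 : (T f : ℝ → ℝ) =ᵐ[volume] f := by rw [hf]
  filter_upwards [h2, Lp.coeFn_sub (hk.toL1 k) ((hi f).toL1 (cv k f)), hk.coeFn_toL1,
    (hi f).coeFn_toL1] with x a1 a2 a3 a4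
  have a5 : (T f : ℝ → ℝ) x = k x - cv k f x := by
    show ((hk.toL1 k - (hi f).toL1 (cv k f) : E) : ℝ → ℝ) x = _
    rw [a2, Pi.sub_apply, a3, a4]
  rw [← a1, a5]
  have : cv k (T f) x = cv k f x := cv_congr k h2 x
  linarith

theorem ex : S_EX := by
  intro k hk hki hk1
  obtain ⟨r, hri, hr⟩ := fixed hki hk1
  -- the part on the negative half line
  set s : ℝ → ℝ := (Iic (0 : ℝ)).indicator r with hs
  have hsi : Integrable s := hri.indicator measurableSet_Iic
  have h1 : ∀ᵐ x, |s x| ≤ |cv k s x| := by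
    filter_upwards [hr] with x hx
    by_cases hx0 : x ≤ 0
    · have e1 : s x = r x := indicator_of_mem (s := Iic (0 : ℝ)) hx0 r
      have e2 : cv k s x = cv k r x := by
        show ∫ y, k y * s (x - y) = ∫ y, k y * r (x - y)
        congr 1; ext y
        by_cases hy : y ≤ 0
        · rw [hk y hy, zero_mul, zero_mul]
        · push Not at hy
          have : s (x - y) = r (x - y) :=
            indicator_of_mem (s := Iic (0 : ℝ)) (show x - y ≤ 0 by linarith) r
          rw [this]
      rw [e1, e2]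
      rw [hk x hx0] at hx
      have : r x = -cv k r x := by linarith
      rw [this, abs_neg]
    · have e1 : s x = 0 := indicator_of_notMem (s := Iic (0 : ℝ)) (by simpa using hx0) r
      rw [e1, abs_zero]; exact abs_nonneg _
  have h2 : ∫ x, |s x| ≤ (∫ x, |k x|) * ∫ x, |s x| :=
    (integral_mono_ae hsi.abs (cv_int hki hsi).abs h1).trans (cv_norm hki hsi)
  have h3 : ∫ x, |s x| = 0 := by
    have h4 : 0 ≤ ∫ x, |s x| := integral_nonneg fun x => abs_nonneg _
    nlinarith
  have h5 : s =ᵐ[volume] 0 := by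
    have h6 := (integral_eq_zero_iff_of_nonneg (fun x => abs_nonneg (s x)) hsi.abs).1 h3
    filter_upwards [h6] with x hx
    simpa using hx
  set r' : ℝ → ℝ := (Ioi (0 : ℝ)).indicator r with hr'
  have h7 : r' =ᵐ[volume] r := by
    filter_upwards [h5] with x hx
    by_cases hx0 : x ≤ 0
    · have e1 : s x = r x := indicator_of_mem (s := Iic (0 : ℝ)) hx0 r
      have e2 : r' x = 0 := indicator_of_notMem (s := Ioi (0 : ℝ)) (by simpa using hx0) r
      rw [e2, ← e1, hx]; rfl
    · exact indicator_of_mem (s := Ioi (0 : ℝ)) (not_le.1 hx0) r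
  refine ⟨r', ?_, hri.indicator measurableSet_Ioi, ?_⟩
  · intro x hx
    exact indicator_of_notMem (s := Ioi (0 : ℝ)) (by simpa using hx) r
  · filter_upwards [hr, h7] with x a1 a2
    rw [a2, cv_congr k h7 x, a1]

end Pool.Agent.W349.DO
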